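import Pool.Agent.Helper79.GL4.GoalsA

/-! PEL (MP_27a5f8_al): elimination of groups of order prime to `p`. -/

set_option autoImplicit false

namespace Pool.Agent.Helper3.GL4PEL

open Module Submodule GL4

section

variable {F : Type} [Field F] [Finite F] {V : Type} [AddCommGroup V] [Module F V]
  [FiniteDimensional F V] {K : Subgroup (V ≃ₗ[F] V)}

/-- stabiliser of a subspace in `K` -/
def St (K : Subgroup (V ≃ₗ[F] V)) (P : Submodule F V) : Subgroup (V ≃ₗ[F] V) where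
  carrier := {k | k ∈ K ∧ im k P = P}
  one_mem' := ⟨K.one_mem, im_one _⟩
  mul_mem' := by
    rintro a b ⟨ha, ha'⟩ ⟨hb, hb'⟩
    exact ⟨K.mul_mem ha hb, by rw [im_mul, hb', ha']⟩
  inv_mem' := by
    rintro a ⟨ha, ha'⟩
    exact ⟨K.inv_mem ha, im_inv_of_eq ha'⟩

/-- invariant complement of a point -/
def IsH (K : Subgroup (V ≃ₗ[F] V)) (P H : Submodule F V) : Prop :=
  Hy H ∧ ¬ P ≤ H ∧ ∀ k ∈ K, im k P = P → im k H = H

omit [Finite F] [FiniteDimensional F V] in
theorem apply_mem {k : V ≃ₗ[F] V} {P : Submodule F V} (h : im k P = P) {v : V} (hv : v ∈ P) :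
    k v ∈ P := by
  have := apply_mem_im (g := k) hv
  rwa [h] at this

theorem maschke (hK : ¬ ringChar F ∣ Nat.card K) {P : Submodule F V} (hP : Pt P) :
    ∃ H, IsH K P H := by
  classical
  obtain ⟨v0, hv0, hPv⟩ := hP.exists_span
  obtain ⟨f, hf, -⟩ := Submodule.exists_le_ker_of_notMem (p := (⊥ : Submodule F V)) (v := v0)
    (by simpa using hv0)
  let pr : V →ₗ[F] V := (((f v0)⁻¹ • f) : V →ₗ[F] F).smulRight v0
  have hpr : ∀ v, pr v = ((f v0)⁻¹ * f v) • v0 := fun v => by simp [pr]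
  have hprP : ∀ v, pr v ∈ P := fun v => by
    rw [hpr, hPv]
    exact smul_mem _ _ (mem_span_singleton_self _)
  have hprid : ∀ v ∈ P, pr v = v := by
    intro v hv
    rw [hPv] at hv
    obtain ⟨c, rfl⟩ := mem_span_singleton.1 hv
    rw [hpr, map_smul, smul_eq_mul]
    congr 1
    field_simp
  haveI : Finite (St K P) := inferInstance
  letI : Fintype (St K P) := Fintype.ofFinite _
  let N : V →ₗ[F] V := ∑ k : St K P,
    ((k : V ≃ₗ[F] V) : V →ₗ[F] V) ∘ₗ pr ∘ₗ (((k : V ≃ₗ[F] V)⁻¹ : V ≃ₗ[F] V) : V →ₗ[F] V)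
  have hN : ∀ v, N v = ∑ k : St K P, (k : V ≃ₗ[F] V) (pr ((k : V ≃ₗ[F] V)⁻¹ v)) := by
    intro v
    simp [N, LinearMap.sum_apply]
  have hNP : ∀ v, N v ∈ P := by
    intro v
    rw [hN]
    exact sum_mem fun k _ => apply_mem k.2.2 (hprP _)
  have hm : ((Fintype.card (St K P) : ℕ) : F) ≠ 0 := by
    intro h
    apply hK
    rw [ringChar.spec, ← Nat.card_eq_fintype_card] at h
    exact h.trans (Subgroup.card_dvd_of_le (fun k hk => hk.1))
  have hNid : ∀ v ∈ P, N v = ((Fintype.card (St K P) : ℕ) : F) • v := by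
    intro v hv
    rw [hN]
    have h1 : ∀ k : St K P, (k : V ≃ₗ[F] V) (pr ((k : V ≃ₗ[F] V)⁻¹ v)) = v := by
      intro k
      have h2 : (k : V ≃ₗ[F] V)⁻¹ v ∈ P := apply_mem (im_inv_of_eq k.2.2) hv
      rw [hprid _ h2]
      exact (k : V ≃ₗ[F] V).apply_symm_apply v
    rw [Finset.sum_congr rfl (fun k _ => h1 k), Finset.sum_const, Finset.card_univ,
      Nat.cast_smul_eq_nsmul]
  have heq : ∀ g ∈ St K P, ∀ v, g (N v) = N (g v) := by
    intro g hg v
    rw [hN, hN, map_sum]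
    refine Fintype.sum_equiv (Equiv.mulLeft (⟨g, hg⟩ : St K P)) _ _ (fun k => ?_)
    have h1 : ((Equiv.mulLeft (⟨g, hg⟩ : St K P) k : St K P) : V ≃ₗ[F] V)
        = g * (k : V ≃ₗ[F] V) := rfl
    rw [h1, mul_inv_rev]
    have h2 : ((k : V ≃ₗ[F] V)⁻¹ * g⁻¹) (g v) = (k : V ≃ₗ[F] V)⁻¹ v := by
      rw [LinearEquiv.mul_apply]
      congr 1
      exact g.symm_apply_apply v
    rw [h2, LinearEquiv.mul_apply]
  have hv0P : v0 ∈ P := by rw [hPv]; exact mem_span_singleton_self _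
  have hrange : LinearMap.range N = P := by
    apply le_antisymm
    · rintro _ ⟨v, rfl⟩
      exact hNP v
    · intro v hv
      refine ⟨((Fintype.card (St K P) : ℕ) : F)⁻¹ • v, ?_⟩
      rw [map_smul, hNid v hv, smul_smul, inv_mul_cancel₀ hm, one_smul]
  refine ⟨LinearMap.ker N, ?_, ?_, ?_⟩
  · have h1 := LinearMap.finrank_range_add_finrank_ker N
    rw [hrange, hP] at h1
    rw [Hy]
    omega
  · intro h
    have h1 : N v0 = 0 := h hv0P
    rw [hNid v0 hv0P] at h1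
    rcases smul_eq_zero.1 h1 with h2 | h2
    · exact hm h2
    · exact hv0 h2
  · intro k hk hkP
    apply im_eq_of_le
    rintro _ ⟨v, hv, rfl⟩
    have h1 : N v = 0 := hv
    show N (k v) = 0
    rw [← heq k ⟨hk, hkP⟩, h1, map_zero]

omit [Finite F] in
theorem exists_pt_ne {T : Submodule F V} (h : T ≠ ⊤) : ∃ z, Pt z ∧ ¬ z ≤ T := by
  obtain ⟨z, h1, -, h3⟩ := exists_pt_not_le (U := (⊤ : Submodule F V)) (U' := T)
    (fun h' => h (top_le_iff.1 h'))
  exact ⟨z, h1, h3⟩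

omit [Finite F] in
theorem finrank_inf2 {H H' : Submodule F V} (hH : Hy H) (hH' : Hy H') :
    finrank F V ≤ finrank F ↥(H ⊓ H') + 2 := by
  by_cases h : H ≤ H'
  · rw [inf_eq_left.2 h]
    rw [Hy] at hH
    omega
  · have := finrank_inf_hy hH' h
    rw [Hy] at hH
    omega

omit [Finite F] in
theorem unique (hn : 3 ≤ finrank F V) (hK : FlagPL K) {P H H' : Submodule F V} (hP : Pt P)
    (h : IsH K P H) (h' : IsH K P H') : H = H' := by
  by_contra hne
  have hle : ¬ H ≤ H' := fun hc => hne (h.1.eq_of_le h'.1 hc)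
  have hdim := finrank_inf_hy h'.1 hle
  have hHd := h.1
  rw [Hy] at hHd
  have hT : H ⊓ H' ≠ ⊥ := by
    intro hc
    rw [hc, finrank_bot] at hdim
    omega
  obtain ⟨y, hy, hyT⟩ := exists_pt_le hT
  have hPT : ¬ P ≤ H ⊓ H' := fun hc => h.2.1 (hc.trans inf_le_left)
  have hdim2 := finrank_sup_pt hP hPT
  have htop : (H ⊓ H') ⊔ P ≠ ⊤ := by
    intro hc
    rw [hc, finrank_top] at hdim2
    omega
  obtain ⟨z, hz, hzT⟩ := exists_pt_ne htop
  have hyP : P ≠ y := fun hc => hPT (hc ▸ hyT)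
  have hzP : P ≠ z := fun hc => hzT (hc ▸ le_sup_right)
  obtain ⟨k, hk, hkP, hkL⟩ := hK P (P ⊔ y) P (P ⊔ z) hP (ln_sup hP hy hyP) hP
    (ln_sup hP hz hzP) le_sup_left le_sup_left
  apply hzT
  have h1 : P ⊔ z ≤ (H ⊓ H') ⊔ P := by
    rw [← hkL]
    have h2 : im k ((H ⊓ H') ⊔ P) = (H ⊓ H') ⊔ P := by
      rw [im_sup, im_inf, h.2.2 k hk hkP, h'.2.2 k hk hkP, hkP]
    rw [← h2]
    exact im_mono k (sup_le le_sup_right (hyT.trans le_sup_left))
  exact le_sup_right.trans h1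

omit [Finite F] in
/-- an automorphism fixing three points of a line fixes all its points -/
theorem three {L P Q R : Submodule F V} (hL : Ln L) (hP : Pt P) (hQ : Pt Q) (hR : Pt R)
    (hPL : P ≤ L) (hQL : Q ≤ L) (hRL : R ≤ L) (hPQ : P ≠ Q) (hPR : P ≠ R) (hQR : Q ≠ R)
    {k : V ≃ₗ[F] V} (h1 : im k P = P) (h2 : im k Q = Q) (h3 : im k R = R) {X : Submodule F V}
    (hX : X ≤ L) : im k X = X := by
  have hsup : P ⊔ Q = L := by
    apply Submodule.eq_of_le_of_finrank_eq (sup_le hPL hQL)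
    have := ln_sup hP hQ hPQ
    rw [Ln] at this hL
    rw [this, hL]
  obtain ⟨c, hc0, hRc⟩ := hR.exists_span
  have hcR : c ∈ R := by rw [hRc]; exact mem_span_singleton_self _
  have hcL : c ∈ P ⊔ Q := by rw [hsup]; exact hRL hcR
  obtain ⟨a, ha, b, hb, hab⟩ := Submodule.mem_sup.1 hcL
  have ha0 : a ≠ 0 := by
    rintro rfl
    rw [zero_add] at hab
    apply hQR
    symm
    apply hR.eq_of_le hQ
    rw [hRc, span_singleton_le_iff_mem, ← hab]
    exact hb
  have hb0 : b ≠ 0 := by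
    rintro rfl
    rw [add_zero] at hab
    apply hPR
    symm
    apply hR.eq_of_le hP
    rw [hRc, span_singleton_le_iff_mem, ← hab]
    exact ha
  have hPa : P = F ∙ a := by
    symm
    apply (pt_span ha0).eq_of_le hP
    rwa [span_singleton_le_iff_mem]
  have hQb : Q = F ∙ b := by
    symm
    apply (pt_span hb0).eq_of_le hQ
    rwa [span_singleton_le_iff_mem]
  have hka : k a ∈ P := apply_mem h1 ha
  have hkb : k b ∈ Q := apply_mem h2 hb
  have hkc : k c ∈ R := apply_mem h3 hcR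
  rw [hPa] at hka
  rw [hQb] at hkb
  rw [hRc] at hkc
  obtain ⟨α, hα⟩ := mem_span_singleton.1 hka
  obtain ⟨β, hβ⟩ := mem_span_singleton.1 hkb
  obtain ⟨γ, hγ⟩ := mem_span_singleton.1 hkc
  have hinf : P ⊓ Q = ⊥ := by
    rcases hP.le_or_inf_eq_bot Q with h | h
    · exact absurd (hP.eq_of_le hQ h) hPQ
    · exact h
  have hrel : (γ - α) • a = (β - γ) • b := by
    have h4 : k c = k a + k b := by rw [← hab, map_add]
    rw [← hγ, ← hα, ← hβ, ← hab] at h4
    rw [sub_smul, sub_smul]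
    have h5 : γ • a + γ • b = α • a + β • b := by rw [← smul_add]; exact h4
    rw [sub_eq_sub_iff_add_eq_add]
    rw [h5]
    abel
  have hz1 : (γ - α) • a = 0 := by
    have h6 : (γ - α) • a ∈ P ⊓ Q := ⟨P.smul_mem _ ha, by rw [hrel]; exact Q.smul_mem _ hb⟩
    rw [hinf] at h6
    exact h6
  have hz2 : (β - γ) • b = 0 := by rw [← hrel]; exact hz1
  have e1 : γ = α := by
    rcases smul_eq_zero.1 hz1 with h | h
    · exact sub_eq_zero.1 h
    · exact absurd h ha0
  have e2 : β = γ := by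
    rcases smul_eq_zero.1 hz2 with h | h
    · exact sub_eq_zero.1 h
    · exact absurd h hb0
  apply im_eq_of_le
  rintro _ ⟨v, hv, rfl⟩
  have hvL : v ∈ P ⊔ Q := by rw [hsup]; exact hX hv
  obtain ⟨s, hs, t, ht, rfl⟩ := Submodule.mem_sup.1 hvL
  rw [hPa] at hs
  rw [hQb] at ht
  obtain ⟨σ, rfl⟩ := mem_span_singleton.1 hs
  obtain ⟨τ, rfl⟩ := mem_span_singleton.1 ht
  have h7 : k (σ • a + τ • b) = γ • (σ • a + τ • b) := by
    rw [map_add, map_smul, map_smul, ← hα, ← hβ, e2, ← e1, smul_add, smul_comm σ γ,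
      smul_comm τ γ]
  show k (σ • a + τ • b) ∈ X
  rw [h7]
  exact X.smul_mem _ hv

end

theorem pel : GL4.PEL := by
  intro F _ _ V _ _ _ K hn hK hchar hmove
  classical
  -- the moved point, for every flag
  have hmove' : ∀ P L : Submodule F V, Pt P → Ln L → P ≤ L → ∃ k ∈ K, ∃ Q, Pt Q ∧ Q ≤ L ∧
      im k P = P ∧ im k L = L ∧ im k Q ≠ Q := by
    intro P L hP hL hPL
    obtain ⟨P0, L0, Q0, k0, hk0, h1, h2, h3, h4, h5, h6, h7, h8⟩ := hmove
    obtain ⟨g, hg, hgP, hgL⟩ := hK P0 L0 P L h1 h2 hP hL h4 hPL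
    refine ⟨g * k0 * g⁻¹, K.mul_mem (K.mul_mem hg hk0) (K.inv_mem hg), im g Q0, h3.im, ?_, ?_,
      ?_, ?_⟩
    · rw [← hgL]; exact im_mono g h5
    · rw [im_mul, im_mul, im_inv_of_eq hgP, h6, hgP]
    · rw [im_mul, im_mul, im_inv_of_eq hgL, h7, hgL]
    · rw [im_mul, im_mul, im_inv_im]
      intro hc
      exact h8 ((im_inj g).1 hc)
  -- the invariant complement
  have hex : ∀ P : Submodule F V, ∃ H, Pt P → IsH K P H := by
    intro P
    by_cases hP : Pt P
    · obtain ⟨H, hH⟩ := maschke hchar hP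
      exact ⟨H, fun _ => hH⟩
    · exact ⟨⊥, fun h => absurd h hP⟩
  choose Hf hHf using hex
  -- fixed points on a line
  have hfix : ∀ P L R : Submodule F V, Pt P → Ln L → P ≤ L → Pt R → R ≤ L → R ≠ P →
      (∀ k ∈ K, im k P = P → im k L = L → im k R = R) → R ≤ Hf P := by
    intro P L R hP hL hPL hR hRL hRP hall
    obtain ⟨hH1, hH2, hH3⟩ := hHf P hP
    have hLH : ¬ L ≤ Hf P := fun h => hH2 (hPL.trans h)
    have hd := finrank_inf_hy hH1 hLH
    have hQ : Pt (L ⊓ Hf P) := by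
      rw [Ln] at hL
      rw [Pt]
      omega
    by_cases hRQ : R = L ⊓ Hf P
    · rw [hRQ]; exact inf_le_right
    · exfalso
      obtain ⟨k, hk, X, hX, hXL, hkP, hkL, hkX⟩ := hmove' P L hP hL hPL
      have hPQ : P ≠ L ⊓ Hf P := by
        intro h
        apply hH2
        have h2 : L ⊓ Hf P ≤ Hf P := inf_le_right
        rwa [← h] at h2
      have hkQ : im k (L ⊓ Hf P) = L ⊓ Hf P := by
        rw [im_inf, hkL, hH3 k hk hkP]
      exact hkX (three hL hP hQ hR hPL inf_le_left hRL hPQ hRP.symm (fun h => hRQ h.symm) hkP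
        hkQ (hall k hk hkP hkL) hXL)
  -- symmetry
  have hsymm : ∀ P P' : Submodule F V, Pt P → Pt P' → P' ≤ Hf P → P ≤ Hf P' := by
    intro P P' hP hP' hle
    obtain ⟨hH1, hH2, hH3⟩ := hHf P hP
    have hne : P ≠ P' := by
      rintro rfl
      exact hH2 hle
    have hL : Ln (P ⊔ P') := ln_sup hP hP' hne
    have hPL : P ≤ P ⊔ P' := le_sup_left
    have hPL' : P' ≤ P ⊔ P' := le_sup_right
    have hQ : (P ⊔ P') ⊓ Hf P = P' := by
      have hLH : ¬ P ⊔ P' ≤ Hf P := fun h => hH2 (hPL.trans h)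
      have hd := finrank_inf_hy hH1 hLH
      have hQ1 : Pt ((P ⊔ P') ⊓ Hf P) := by
        rw [Ln] at hL
        rw [Pt]
        omega
      exact (hP'.eq_of_le hQ1 (le_inf hPL' hle)).symm
    let A : Set (V ≃ₗ[F] V) := {k | k ∈ K ∧ im k P = P ∧ im k (P ⊔ P') = P ⊔ P'}
    let B : Set (V ≃ₗ[F] V) := {k | k ∈ K ∧ im k P' = P' ∧ im k (P ⊔ P') = P ⊔ P'}
    have hAB : A ⊆ B := by
      rintro k ⟨hk, h1, h2⟩
      refine ⟨hk, ?_, h2⟩
      calc im k P' = im k ((P ⊔ P') ⊓ Hf P) := by rw [hQ]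
        _ = (P ⊔ P') ⊓ Hf P := by rw [im_inf, h2, hH3 k hk h1]
        _ = P' := hQ
    obtain ⟨g, hg, hgP, hgL⟩ := hK P (P ⊔ P') P' (P ⊔ P') hP hL hP' hL hPL hPL'
    have hBA : B.ncard ≤ A.ncard := by
      have hinj : Function.Injective (fun k : V ≃ₗ[F] V => g⁻¹ * k * g) := by
        intro k k' h
        simpa using h
      have hmaps : (fun k : V ≃ₗ[F] V => g⁻¹ * k * g) '' B ⊆ A := by
        rintro _ ⟨k, ⟨hk, h1, h2⟩, rfl⟩
        refine ⟨K.mul_mem (K.mul_mem (K.inv_mem hg) hk) hg, ?_, ?_⟩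
        · rw [im_mul, im_mul, hgP, h1, im_inv_of_eq hgP]
        · rw [im_mul, im_mul, hgL, h2, im_inv_of_eq hgL]
      rw [← Set.ncard_image_of_injective B hinj]
      exact Set.ncard_le_ncard hmaps (Set.toFinite A)
    have hEq : A = B := Set.eq_of_subset_of_ncard_le hAB hBA (Set.toFinite B)
    apply hfix P' (P ⊔ P') P hP' hL hPL' hP hPL hne
    intro k hk h1 h2
    have hkB : k ∈ B := ⟨hk, h1, h2⟩
    rw [← hEq] at hkB
    exact hkB.2.1
  -- the matrix
  haveI : Finite {x : Submodule F V // Pt x} := inferInstance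
  letI : Fintype {x : Submodule F V // Pt x} := Fintype.ofFinite _
  letI : Fintype F := Fintype.ofFinite F
  let M : Matrix {x : Submodule F V // Pt x} {x : Submodule F V // Pt x} F :=
    fun P P' => if P'.1 ≤ Hf P.1 then 1 else 0
  let J : Matrix {x : Submodule F V // Pt x} {x : Submodule F V // Pt x} F := fun _ _ => 1
  have hbr : ∀ m : ℕ, 1 ≤ m → ((br (Nat.card F) m : ℕ) : F) = 1 := by
    intro m hm
    obtain ⟨j, rfl⟩ := Nat.exists_eq_add_of_le hm
    rw [add_comm, br_succ', Nat.cast_add, Nat.cast_mul, Nat.card_eq_fintype_card,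
      FiniteField.cast_card_eq_zero]
    simp
  have hcount : ∀ U : Submodule F V, 1 ≤ finrank F U →
      ∑ R : {x : Submodule F V // Pt x}, (if R.1 ≤ U then (1:F) else 0) = 1 := by
    intro U hU
    rw [Finset.sum_boole, ← hbr _ hU, ← card_pts_le U]
    congr 1
    rw [← Fintype.card_coe, ← Nat.card_eq_fintype_card]
    apply Nat.card_congr
    exact {
      toFun := fun x => ⟨x.1.1, x.1.2, (Finset.mem_filter.1 x.2).2⟩
      invFun := fun x => ⟨⟨x.1, x.2.1⟩, Finset.mem_filter.2 ⟨Finset.mem_univ _, x.2.2⟩⟩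
      left_inv := fun x => rfl
      right_inv := fun x => rfl }
  have hHy : ∀ P : {x : Submodule F V // Pt x}, Hy (Hf P.1) := fun P => (hHf P.1 P.2).1
  have hM2 : M * M = J := by
    ext P P'
    rw [Matrix.mul_apply]
    have h1 : ∀ R : {x : Submodule F V // Pt x}, M P R * M R P' =
        if R.1 ≤ Hf P.1 ⊓ Hf P'.1 then (1:F) else 0 := by
      intro R
      have h2 : P'.1 ≤ Hf R.1 ↔ R.1 ≤ Hf P'.1 :=
        ⟨hsymm R.1 P'.1 R.2 P'.2, hsymm P'.1 R.1 P'.2 R.2⟩
      show (if R.1 ≤ Hf P.1 then (1:F) else 0) * (if P'.1 ≤ Hf R.1 then (1:F) else 0) = _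
      by_cases h3 : R.1 ≤ Hf P.1 <;> by_cases h4 : R.1 ≤ Hf P'.1 <;> simp [h2, h3, h4]
    rw [Finset.sum_congr rfl (fun R _ => h1 R), hcount]
    have := finrank_inf2 (hHy P) (hHy P')
    omega
  have hMJ : M * J = J := by
    ext P P'
    rw [Matrix.mul_apply]
    have h1 : ∀ R : {x : Submodule F V // Pt x}, M P R * J R P' =
        if R.1 ≤ Hf P.1 then (1:F) else 0 := fun R => mul_one _
    rw [Finset.sum_congr rfl (fun R _ => h1 R), hcount]
    have := hHy P
    rw [Hy] at this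
    omega
  have hJM : J * M = J := by
    ext P P'
    rw [Matrix.mul_apply]
    have h1 : ∀ R : {x : Submodule F V // Pt x}, J P R * M R P' =
        if R.1 ≤ Hf P'.1 then (1:F) else 0 := by
      intro R
      have h2 : P'.1 ≤ Hf R.1 ↔ R.1 ≤ Hf P'.1 :=
        ⟨hsymm R.1 P'.1 R.2 P'.2, hsymm P'.1 R.1 P'.2 R.2⟩
      show 1 * (if P'.1 ≤ Hf R.1 then (1:F) else 0) = _
      rw [one_mul]
      by_cases h3 : R.1 ≤ Hf P'.1 <;> simp [h2, h3]
    rw [Finset.sum_congr rfl (fun R _ => h1 R), hcount]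
    have := hHy P'
    rw [Hy] at this
    omega
  have hcard : ((Fintype.card {x : Submodule F V // Pt x} : ℕ) : F) = 1 := by
    rw [← Nat.card_eq_fintype_card, card_pts, hbr]
    omega
  have hJJ : J * J = J := by
    ext P P'
    rw [Matrix.mul_apply]
    have h1 : ∀ R : {x : Submodule F V // Pt x}, J P R * J R P' = 1 := fun R => mul_one _
    rw [Finset.sum_congr rfl (fun R _ => h1 R), Finset.sum_const, Finset.card_univ, nsmul_one,
      hcard]
  have hsq : (M - J) ^ 2 = 0 := by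
    rw [pow_two, sub_mul, mul_sub, mul_sub, hM2, hMJ, hJM, hJJ]
    simp
  have hnil : IsNilpotent (M - J) := ⟨2, hsq⟩
  have htr := Matrix.isNilpotent_trace_of_isNilpotent hnil
  rw [isNilpotent_iff_eq_zero, Matrix.trace_sub] at htr
  have htM : M.trace = 0 := by
    rw [Matrix.trace]
    apply Finset.sum_eq_zero
    intro P _
    show (if P.1 ≤ Hf P.1 then (1:F) else 0) = 0
    rw [if_neg (hHf P.1 P.2).2.1]
  have htJ : J.trace = 1 := by
    rw [Matrix.trace]
    show ∑ P : {x : Submodule F V // Pt x}, (1 : F) = 1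
    rw [Finset.sum_const, Finset.card_univ, nsmul_one, hcard]
  rw [htM, htJ, zero_sub, neg_eq_zero] at htr
  exact one_ne_zero htr

end Pool.Agent.Helper3.GL4PEL
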