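import Pool.Agent.Helper79.GL4.GoalsB

/-! SP1 (MP_27a5f8_al): spread geometry. -/

set_option autoImplicit false

namespace Pool.Agent.Helper3.GL4SP1

open Module Submodule GL4

section

variable {F : Type} [Field F] [Finite F] {W : Type} [AddCommGroup W] [Module F W]
  [FiniteDimensional F W] {G : Subgroup (W ≃ₗ[F] W)} {c : ℕ}
  {B C N : Submodule F W → Submodule F W}

omit [Finite F] [FiniteDimensional F W] in
/-- the hypotheses -/
structure Hyp (G : Subgroup (W ≃ₗ[F] W)) (c : ℕ) (B C N : Submodule F W → Submodule F W) :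
    Prop where
  bc : BC G c B C
  dimN : ∀ x, Pt x → finrank F (N x) = c + 1
  selfN : ∀ x, Pt x → x ≤ N x
  eqN : ∀ g ∈ G, ∀ x, Pt x → N (im g x) = im g (N x)
  hc : 2 ≤ c
  hm : 2 * c + 1 ≤ finrank F W
  NB : ∀ x, Pt x → N x ≤ B x
  CN : ∀ x H, Pt x → Hy H → x ≤ C H → C H ≤ N x
  dimS : ∀ x y, Pt x → Pt y → y ≤ N x → y ≠ x → finrank F ↥(B x ⊔ B y) + c = finrank F W + 1
  ex : ∀ x Y, Pt x → x ≤ Y → Y ≤ N x → finrank F Y = c → ∃! H, Hy H ∧ B x ≤ H ∧ C H = Y
  spr : ∀ x y, Pt x → Pt y → y ≤ N x → N y = N x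

/-- the subspace `D x` -/
def DD (B N : Submodule F W → Submodule F W) (x : Submodule F W) : Submodule F W :=
  ⨅ z : {z : Submodule F W // Pt z ∧ z ≤ N x}, B z.1

omit [Finite F] [FiniteDimensional F W] in
theorem le_DD {x U : Submodule F W} : U ≤ DD B N x ↔ ∀ z, Pt z → z ≤ N x → U ≤ B z := by
  rw [DD, le_iInf_iff]
  exact ⟨fun h z h1 h2 => h ⟨z, h1, h2⟩, fun h z => h z.1 z.2.1 z.2.2⟩

omit [Finite F] [FiniteDimensional F W] in
theorem DD_le {x z : Submodule F W} (hz : Pt z) (hzx : z ≤ N x) : DD B N x ≤ B z :=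
  le_DD.1 le_rfl z hz hzx

omit [Finite F] [FiniteDimensional F W] in
theorem DD_congr {x y : Submodule F W} (h : N x = N y) : DD B N x = DD B N y := by
  apply le_antisymm
  · exact le_DD.2 fun z hz hzy => DD_le hz (h ▸ hzy)
  · exact le_DD.2 fun z hz hzy => DD_le hz (h ▸ hzy)

omit [Finite F] [FiniteDimensional F W] in
theorem exists_pt_of_pos {U : Submodule F W} (h : 1 ≤ finrank F U) : ∃ x, Pt x ∧ x ≤ U := by
  apply exists_pt_le
  rintro rfl
  rw [finrank_bot] at h
  omega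

omit [Finite F] in
theorem finrank_inf_ge (U U' : Submodule F W) :
    finrank F U + finrank F U' ≤ finrank F ↥(U ⊓ U') + finrank F ↥(U ⊔ U') := by
  have := Submodule.finrank_sup_add_finrank_inf_eq U U'
  omega

omit [Finite F] in
theorem Hyp.ptC (h : Hyp G c B C N) {H : Submodule F W} (hH : Hy H) : ∃ z, Pt z ∧ z ≤ C H := by
  apply exists_pt_of_pos
  rw [h.bc.dimC H hH]
  exact h.bc.c1

omit [Finite F] in
/-- a point in the intersection of two `C`s below `N x` -/
theorem Hyp.pt_inf (h : Hyp G c B C N) {x H₁ H₂ : Submodule F W} (hx : Pt x) (h1 : Hy H₁)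
    (h2 : Hy H₂) (h3 : C H₁ ≤ N x) (h4 : C H₂ ≤ N x) : ∃ z, Pt z ∧ z ≤ C H₁ ∧ z ≤ C H₂ := by
  have hd := finrank_inf_ge (C H₁) (C H₂)
  have hs : finrank F ↥(C H₁ ⊔ C H₂) ≤ c + 1 := by
    rw [← h.dimN x hx]
    exact Submodule.finrank_mono (sup_le h3 h4)
  rw [h.bc.dimC _ h1, h.bc.dimC _ h2] at hd
  have hc := h.hc
  obtain ⟨z, hz, hzi⟩ := exists_pt_of_pos (U := C H₁ ⊓ C H₂) (by omega)
  exact ⟨z, hz, hzi.trans inf_le_left, hzi.trans inf_le_right⟩

omit [Finite F] in
theorem Hyp.pencil (h : Hyp G c B C N) {x H₁ H₂ H₃ : Submodule F W} (hx : Pt x) (h1 : Hy H₁)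
    (h2 : Hy H₂) (h3 : C H₁ ≤ N x) (h4 : C H₂ ≤ N x) (h5 : Hy H₃) (h6 : H₁ ⊓ H₂ ≤ H₃) :
    C H₃ ≤ N x := by
  obtain ⟨z, hz, hz1, hz2⟩ := h.pt_inf hx h1 h2 h3 h4
  have h7 : B z ≤ H₃ :=
    (le_inf ((h.bc.adj z _ hz h1).1 hz1) ((h.bc.adj z _ hz h2).1 hz2)).trans h6
  have h8 : z ≤ C H₃ := (h.bc.adj z _ hz h5).2 h7
  have h9 := h.CN z H₃ hz h5 h8
  rwa [h.spr x z hx hz (hz1.trans h3)] at h9

/-- the dual subspace -/
def SS (h : Hyp G c B C N) (x : Submodule F W) (hx : Pt x) : Submodule F (Module.Dual F W) where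
  carrier := {f | f = 0 ∨ C (LinearMap.ker f) ≤ N x}
  zero_mem' := Or.inl rfl
  add_mem' := by
    rintro f g hf hg
    rcases hf with rfl | hf
    · rw [zero_add]; exact hg
    rcases hg with rfl | hg
    · rw [add_zero]; exact Or.inr hf
    by_cases hf0 : f = 0
    · rw [hf0, zero_add]; exact Or.inr hg
    by_cases hg0 : g = 0
    · rw [hg0, add_zero]; exact Or.inr hf
    by_cases hfg : f + g = 0
    · exact Or.inl hfg
    · right
      apply h.pencil hx (hy_ker hf0) (hy_ker hg0) hf hg (hy_ker hfg)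
      rintro v ⟨hv1, hv2⟩
      have e1 : f v = 0 := hv1
      have e2 : g v = 0 := hv2
      show (f + g) v = 0
      rw [LinearMap.add_apply, e1, e2, add_zero]
  smul_mem' := by
    rintro r f hf
    by_cases hr : r = 0
    · left; rw [hr, zero_smul]
    rcases hf with rfl | hf
    · left; rw [smul_zero]
    · right
      rwa [LinearMap.ker_smul f r hr]

omit [Finite F] in
theorem Hyp.iff (h : Hyp G c B C N) {x H : Submodule F W} (hx : Pt x) (hH : Hy H) :
    DD B N x ≤ H ↔ C H ≤ N x := by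
  constructor
  · intro hD
    obtain ⟨f, hf0, rfl⟩ := hH.exists_ker
    have h1 : (SS h x hx).dualCoannihilator ≤ DD B N x := by
      rw [le_DD]
      intro z hz hzx
      apply le_of_hys
      intro H hH hBH
      obtain ⟨g, hg0, rfl⟩ := hH.exists_ker
      intro v hv
      have h2 : z ≤ C (LinearMap.ker g) := (h.bc.adj z _ hz hH).2 hBH
      have h3 := h.CN z _ hz hH h2
      rw [h.spr x z hx hz hzx] at h3
      have h4 : g ∈ SS h x hx := Or.inr h3
      exact (Submodule.mem_dualCoannihilator v).1 hv g h4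
    have h5 : f ∈ (SS h x hx).dualCoannihilator.dualAnnihilator := by
      rw [Submodule.mem_dualAnnihilator]
      intro w hw
      exact hD (h1 hw)
    rw [Subspace.dualCoannihilator_dualAnnihilator_eq] at h5
    rcases h5 with h6 | h6
    · exact absurd h6 hf0
    · exact h6
  · intro hC
    obtain ⟨z, hz, hzC⟩ := h.ptC hH
    exact (DD_le hz (hzC.trans hC)).trans ((h.bc.adj z H hz hH).1 hzC)

theorem Hyp.card (h : Hyp G c B C N) {x : Submodule F W} (hx : Pt x) :
    Nat.card {H : Submodule F W // Hy H ∧ C H ≤ N x} = br (Nat.card F) (c + 1) := by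
  have h1 := card_hys_ge (F := F) (V := N x) ⊥
  rw [finrank_bot, h.dimN x hx, Nat.sub_zero] at h1
  rw [← h1]
  refine Nat.card_eq_of_bijective (fun H => ⟨(C H.1).comap (N x).subtype, ?_, bot_le⟩) ⟨?_, ?_⟩
  · rw [Hy, finrank_restr H.2.2, h.bc.dimC _ H.2.1, h.dimN x hx]
  · rintro ⟨H, hH, hHx⟩ ⟨H', hH', hHx'⟩ he
    have he1 : (C H).comap (N x).subtype = (C H').comap (N x).subtype :=
      congrArg Subtype.val he
    have he2 : C H = C H' := by
      rw [← incl_restr hHx, he1, incl_restr hHx']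
    obtain ⟨z, hz, hzC⟩ := h.ptC hH
    have hzN : N z = N x := h.spr x z hx hz (hzC.trans hHx)
    obtain ⟨H0, -, hu⟩ := h.ex z (C H) hz hzC (by rw [hzN]; exact hHx) (h.bc.dimC H hH)
    have e1 := hu H ⟨hH, (h.bc.adj z H hz hH).1 hzC, rfl⟩
    have e2 := hu H' ⟨hH', (h.bc.adj z H' hz hH').1 (he2 ▸ hzC), he2.symm⟩
    exact Subtype.ext (e1.trans e2.symm)
  · rintro ⟨Y', hY', -⟩
    have hc := h.hc
    have hYd : finrank F (Y'.map (N x).subtype) = c := by
      rw [finrank_incl]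
      rw [Hy, h.dimN x hx] at hY'
      omega
    obtain ⟨z, hz, hzY⟩ := exists_pt_of_pos (U := Y'.map (N x).subtype) (by omega)
    have hYN : Y'.map (N x).subtype ≤ N x := incl_le Y'
    have hzN : N z = N x := h.spr x z hx hz (hzY.trans hYN)
    obtain ⟨H, ⟨hH, hBH, hCH⟩, -⟩ := h.ex z _ hz hzY (by rw [hzN]; exact hYN) hYd
    refine ⟨⟨H, hH, by rw [hCH]; exact hYN⟩, Subtype.ext ?_⟩
    show (C H).comap (N x).subtype = Y'
    rw [hCH, restr_incl]

theorem Hyp.dimD (h : Hyp G c B C N) {x : Submodule F W} (hx : Pt x) :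
    finrank F (DD B N x) + (c + 1) = finrank F W := by
  have h1 := card_hys_ge (F := F) (V := W) (DD B N x)
  have h2 : Nat.card {H : Submodule F W // Hy H ∧ DD B N x ≤ H} =
      Nat.card {H : Submodule F W // Hy H ∧ C H ≤ N x} := by
    apply Nat.card_congr
    apply Equiv.subtypeEquivRight
    intro H
    exact ⟨fun h3 => ⟨h3.1, (h.iff hx h3.1).1 h3.2⟩, fun h3 => ⟨h3.1, (h.iff hx h3.1).2 h3.2⟩⟩
  rw [h2, h.card hx] at h1
  have h3 : c + 1 = finrank F W - finrank F (DD B N x) := by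
    have hq : 1 ≤ Nat.card F := Nat.card_pos
    rcases lt_trichotomy (c + 1) (finrank F W - finrank F (DD B N x)) with h4 | h4 | h4
    · exact absurd h1 (br_strictMono hq h4).ne
    · exact h4
    · exact absurd h1 (br_strictMono hq h4).ne'
  omega

theorem Hyp.uniq (h : Hyp G c B C N) {x w : Submodule F W} (hx : Pt x) (hw : Pt w)
    (hwD : ¬ w ≤ DD B N x) : ∃! z, Pt z ∧ z ≤ N x ∧ w ≤ B z := by
  have h1 := finrank_inf_ge (B w) (N x)
  have h2 : finrank F ↥(B w ⊔ N x) ≤ finrank F W := Submodule.finrank_le _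
  have h3 := h.bc.dimB w hw
  have h4 := h.dimN x hx
  obtain ⟨z, hz, hzi⟩ := exists_pt_of_pos (U := B w ⊓ N x) (by omega)
  have key : ∀ z, Pt z → z ≤ N x → w ≤ B z → DD B N x ⊔ w = B z := by
    intro z hz hzN hwz
    apply Submodule.eq_of_le_of_finrank_eq (sup_le (DD_le hz hzN) hwz)
    have h5 := h.bc.dimB z hz
    have h6 := h.dimD hx
    rw [finrank_sup_pt hw hwD]
    omega
  refine ⟨z, ⟨hz, hzi.trans inf_le_right, h.bc.symB w z hw hz (hzi.trans inf_le_left)⟩, ?_⟩
  rintro z' ⟨hz', hzN', hwz'⟩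
  by_contra hne
  have e1 := key z hz (hzi.trans inf_le_right) (h.bc.symB w z hw hz (hzi.trans inf_le_left))
  have e2 := key z' hz' hzN' hwz'
  have h7 : z' ≤ N z := by
    rw [h.spr x z hx hz (hzi.trans inf_le_right)]; exact hzN'
  have h8 := h.dimS z z' hz hz' h7 hne
  rw [← e1, ← e2, sup_idem, e1] at h8
  have h9 := h.bc.dimB z hz
  omega

/-- transitivity of the stabiliser of `N x` outside `D x` -/
theorem Hyp.trans (h : Hyp G c B C N) {x w w' : Submodule F W} (hx : Pt x) (hw : Pt w)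
    (hw' : Pt w') (hwD : ¬ w ≤ DD B N x) (hwD' : ¬ w' ≤ DD B N x) :
    ∃ g ∈ G, im g (N x) = N x ∧ im g w = w' := by
  rw [le_DD] at hwD hwD'
  push Not at hwD hwD'
  obtain ⟨z, hz, hzx, hwz⟩ := hwD
  obtain ⟨z', hz', hzx', hwz'⟩ := hwD'
  have htop : ∀ z, Pt z → ¬ (⊤ : Submodule F W) ≤ B z := by
    intro z hz hc
    have h1 := h.bc.dimB z hz
    rw [top_le_iff.1 hc, finrank_top] at h1
    have := h.hc
    omega
  obtain ⟨v, hv, -, hv1, hv2⟩ := exists_pt_not_le₂ (htop z hz) (htop z' hz')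
  obtain ⟨g, hg, hgz, hgw⟩ := h.bc.trB z w v hz hw hv hwz hv1
  obtain ⟨g', hg', hgz', hgw'⟩ := h.bc.trB z' v w' hz' hv hw' hv2 hwz'
  have hN : N z = N x := h.spr x z hx hz hzx
  have hN' : N z' = N x := h.spr x z' hx hz' hzx'
  have e1 : im g (N x) = N x := by
    rw [← hN, ← h.eqN g hg z hz, hgz]
  have e2 : im g' (N x) = N x := by
    rw [← hN', ← h.eqN g' hg' z' hz', hgz']
  refine ⟨g' * g, G.mul_mem hg' hg, ?_, ?_⟩
  · rw [im_mul, e1, e2]
  · rw [im_mul, hgw, hgw']

omit [Finite F] in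
theorem Hyp.imD (h : Hyp G c B C N) {x : Submodule F W} {g : W ≃ₗ[F] W} (hg : g ∈ G)
    (hgx : im g (N x) = N x) : im g (DD B N x) = DD B N x := by
  apply im_eq_of_le
  rw [le_DD]
  intro z hz hzx
  have h1 : im g⁻¹ z ≤ N x := by
    rw [← im_inv_of_eq hgx]
    exact im_mono _ hzx
  have h2 : DD B N x ≤ B (im g⁻¹ z) := DD_le hz.im h1
  rw [h.bc.eqB g⁻¹ (G.inv_mem hg) z hz] at h2
  have h3 := im_mono g h2
  rwa [im_im_inv] at h3

theorem Hyp.delta_le (h : Hyp G c B C N) {u v : Submodule F W} (hu : Pt u) (hv : Pt v)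
    (hvD : ¬ v ≤ DD B N u) : finrank F ↥(DD B N v ⊓ N u) ≤ 1 := by
  by_contra hc
  push Not at hc
  have hne : DD B N v ⊓ N u ≠ ⊥ := by
    intro h0
    rw [h0, finrank_bot] at hc
    omega
  obtain ⟨z, hz, hzi⟩ := exists_pt_le hne
  have hnle : ¬ (DD B N v ⊓ N u) ≤ z := by
    intro h0
    have := Submodule.finrank_mono h0
    rw [hz] at this
    omega
  obtain ⟨z', hz', hzi', hzz⟩ := exists_pt_not_le hnle
  obtain ⟨z0, -, hun⟩ := h.uniq hu hv hvD
  have hDB : DD B N v ≤ B v := DD_le hv (h.selfN v hv)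
  have e1 := hun z ⟨hz, hzi.trans inf_le_right,
    h.bc.symB v z hv hz ((hzi.trans inf_le_left).trans hDB)⟩
  have e2 := hun z' ⟨hz', hzi'.trans inf_le_right,
    h.bc.symB v z' hv hz' ((hzi'.trans inf_le_left).trans hDB)⟩
  exact hzz (by rw [e2, ← e1])

theorem Hyp.delta_le' (h : Hyp G c B C N) {x w : Submodule F W} (hx : Pt x) (hw : Pt w)
    (hwD : ¬ w ≤ DD B N x) : finrank F ↥(N w ⊓ DD B N x) ≤ 1 := by
  have hwD2 := hwD
  rw [le_DD] at hwD2
  push Not at hwD2
  obtain ⟨z, hz, hzx, hwz⟩ := hwD2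
  have h1 : ¬ z ≤ DD B N w := by
    intro h2
    exact hwz (h.bc.symB w z hw hz (h2.trans (DD_le hw (h.selfN w hw))))
  have h2 := h.delta_le hw hz h1
  rw [DD_congr (h.spr x z hx hz hzx), inf_comm] at h2
  exact h2

theorem Hyp.delta_eq (h : Hyp G c B C N) {x w w' : Submodule F W} (hx : Pt x) (hw : Pt w)
    (hw' : Pt w') (hwD : ¬ w ≤ DD B N x) (hwD' : ¬ w' ≤ DD B N x) :
    finrank F ↥(N w' ⊓ DD B N x) = finrank F ↥(N w ⊓ DD B N x) := by
  obtain ⟨g, hg, hgN, hgw⟩ := h.trans hx hw hw' hwD hwD'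
  rw [← finrank_im g (N w ⊓ DD B N x), im_inf, h.imD hg hgN, ← h.eqN g hg w hw, hgw]

/-- number of points of `U` outside `U'` -/
theorem card_diff (U U' : Submodule F W) :
    Nat.card {w : Submodule F W // Pt w ∧ w ≤ U ∧ ¬ w ≤ U'} +
      br (Nat.card F) (finrank F ↥(U ⊓ U')) = br (Nat.card F) (finrank F U) := by
  classical
  rw [← card_pts_le U, ← card_pts_le (U ⊓ U')]
  have e : {x : Submodule F W // Pt x ∧ x ≤ U} ≃
      {w : Submodule F W // Pt w ∧ w ≤ U ∧ ¬ w ≤ U'} ⊕ {x : Submodule F W // Pt x ∧ x ≤ U ⊓ U'} :=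
    { toFun := fun x => if h : x.1 ≤ U' then Sum.inr ⟨x.1, x.2.1, le_inf x.2.2 h⟩ else
        Sum.inl ⟨x.1, x.2.1, x.2.2, h⟩
      invFun := fun s => match s with
        | Sum.inl w => ⟨w.1, w.2.1, w.2.2.1⟩
        | Sum.inr w => ⟨w.1, w.2.1, w.2.2.trans inf_le_left⟩
      left_inv := by
        rintro ⟨x, hx, hxU⟩
        by_cases h : x ≤ U' <;> simp [h]
      right_inv := by
        rintro (⟨x, hx, hxU, hxU'⟩ | ⟨x, hx, hxU⟩)
        · simp [hxU']
        · have : x ≤ U' := hxU.trans inf_le_right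
          simp [this] }
  rw [Nat.card_congr e, Nat.card_sum]

theorem Hyp.delta_zero (h : Hyp G c B C N) {x w : Submodule F W} (hx : Pt x) (hw : Pt w)
    (hwD : ¬ w ≤ DD B N x) : N w ⊓ DD B N x = ⊥ := by
  classical
  have h1 := h.delta_le' hx hw hwD
  have hd : finrank F ↥(N w ⊓ DD B N x) = 0 ∨ finrank F ↥(N w ⊓ DD B N x) = 1 := by omega
  rcases hd with hd | hd
  · exact Submodule.finrank_eq_zero.1 hd
  exfalso
  -- all the intersections are points
  have hall : ∀ w', Pt w' → ¬ w' ≤ DD B N x → finrank F ↥(N w' ⊓ DD B N x) = 1 := by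
    intro w' hw' hwD'
    rw [h.delta_eq hx hw hw' hwD hwD', hd]
  set q := Nat.card F with hq
  haveI : Fintype (Submodule F W) := Fintype.ofFinite _
  let Om : Finset (Submodule F W) := Finset.univ.filter (fun w => Pt w ∧ ¬ w ≤ DD B N x)
  have hc := h.hc
  have hOm : Om.card + br q (finrank F (DD B N x)) = br q (finrank F W) := by
    have h2 := card_diff (F := F) (⊤ : Submodule F W) (DD B N x)
    rw [top_inf_eq, finrank_top] at h2
    rw [← h2]
    congr 1
    rw [← Fintype.card_coe, ← Nat.card_eq_fintype_card]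
    apply Nat.card_congr
    apply Equiv.subtypeEquivRight
    intro w
    simp [Om]
  have hfib : ∀ b ∈ Om.image N, (Om.filter (fun w => N w = b)).card = q * br q c := by
    intro b hb
    obtain ⟨w', hw'm, rfl⟩ := Finset.mem_image.1 hb
    obtain ⟨-, hw', hwD'⟩ := Finset.mem_filter.1 hw'm
    have h2 := card_diff (F := F) (N w') (DD B N x)
    rw [hall w' hw' hwD', h.dimN w' hw', br_one, br_succ', ← hq] at h2
    have h3 : Nat.card {w : Submodule F W // Pt w ∧ w ≤ N w' ∧ ¬ w ≤ DD B N x} = q * br q c := by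
      omega
    rw [← h3, ← Fintype.card_coe, ← Nat.card_eq_fintype_card]
    apply Nat.card_congr
    apply Equiv.subtypeEquivRight
    intro v
    rw [Finset.mem_filter, Finset.mem_filter]
    constructor
    · rintro ⟨⟨-, hv, hvD⟩, hvN⟩
      exact ⟨hv, hvN ▸ h.selfN v hv, hvD⟩
    · rintro ⟨hv, hvN, hvD⟩
      exact ⟨⟨Finset.mem_univ _, hv, hvD⟩, h.spr w' v hw' hv hvN⟩
  have hsum := Finset.card_eq_sum_card_image N Om
  rw [Finset.sum_congr rfl hfib, Finset.sum_const, smul_eq_mul] at hsum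
  have hdD := h.dimD hx
  rw [← hdD, br_add] at hOm
  have hOm2 : Om.card = q ^ finrank F (DD B N x) * br q (c + 1) := by omega
  have hdvd : br q c ∣ q ^ finrank F (DD B N x) * br q (c + 1) := by
    rw [← hOm2, hsum]
    exact ⟨(Om.image N).card * q, by ring⟩
  have hcop : Nat.Coprime (br q c) q := by
    obtain ⟨j, rfl⟩ : ∃ j, c = j + 1 := ⟨c - 1, by omega⟩
    rw [br_succ']
    rw [Nat.coprime_iff_gcd_eq_one]
    simp
  have hcop2 : Nat.Coprime (br q c) (q ^ finrank F (DD B N x)) := Nat.Coprime.pow_right _ hcop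
  have h5 := hcop2.dvd_of_dvd_mul_left hdvd
  rw [br_succ'] at h5
  have h6 : br q c ∣ 1 := (Nat.dvd_add_right (Dvd.intro_left q rfl)).1 h5
  have h7 : br q c = 1 := Nat.dvd_one.1 h6
  have hq1 : 1 ≤ q := Nat.card_pos
  have h8 := br_strictMono (q := q) (a := 1) (b := c) hq1 (by omega)
  rw [br_one] at h8
  omega

end

theorem sp1 : GL4.SP1 := by
  intro F _ _ W _ _ _ G c B C N L hWS hc hm hNB hLC hS hE hspr
  have h : Hyp G c B C N :=
    { bc := hWS.bc
      dimN := hWS.nn.dimN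
      selfN := hWS.nn.selfN
      eqN := hWS.nn.eqN
      hc := hc
      hm := hm
      NB := hNB
      CN := fun x H hx hH hxC => (hLC x H hx hH hxC).2
      dimS := hS
      ex := hE
      spr := hspr }
  refine ⟨DD B N, ?_⟩
  exact
    { a3 := by omega
      dimN := hWS.nn.dimN
      selfN := hWS.nn.selfN
      spr := hspr
      symB := hWS.bc.symB
      dimB := fun x hx => by have := hWS.bc.dimB x hx; omega
      dimD := fun x hx => h.dimD hx
      DB := fun x y hx hy hyx => DD_le hy hyx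
      Dspr := fun x y hx hy hyx => DD_congr (hspr x y hx hy hyx)
      memD := fun x w hx hw hall => le_DD.2 hall
      ND := fun x hx => le_DD.2 fun z hz hzx => by
        rw [← hspr x z hx hz hzx]; exact hNB z hz
      uniq := fun x w hx hw hwD => h.uniq hx hw hwD
      dich := by
        intro x y hx hy
        by_cases h1 : N y ≤ DD B N x
        · exact Or.inl h1
        · right
          obtain ⟨w, hw, hwy, hwD⟩ := exists_pt_not_le h1
          rw [← hspr y w hy hw hwy]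
          exact h.delta_zero hx hw hwD
      linN := by
        intro u x y z hu hx hy hz hxu hyu hzxy
        apply le_of_hys
        intro H hH hBH
        apply (hWS.bc.adj z H hz hH).1
        refine hzxy.trans (sup_le ?_ ?_)
        · exact (hWS.bc.adj x H hx hH).2 (le_sup_left.trans hBH)
        · exact (hWS.bc.adj y H hy hH).2 (le_sup_right.trans hBH)
      supD := by
        intro x y hx hy hne
        by_contra hc2
        obtain ⟨v, hv⟩ : ∃ v, v ∉ DD B N x ⊔ DD B N y := by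
          by_contra hc3
          push Not at hc3
          exact hc2 (eq_top_iff.2 fun v _ => hc3 v)
        obtain ⟨H, hH, hle, -⟩ := exists_hy_of_notMem hv
        have h1 := (h.iff hx hH).1 (le_sup_left.trans hle)
        have h2 := (h.iff hy hH).1 (le_sup_right.trans hle)
        obtain ⟨z, hz, hzC⟩ := h.ptC hH
        apply hne
        rw [← hspr x z hx hz (hzC.trans h1), ← hspr y z hy hz (hzC.trans h2)] }

end Pool.Agent.Helper3.GL4SP1
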